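import Mathlib
import Pool.Agent.L0h84.DK.Ext
import Pool.Agent.L0h84.DK.Sys

/-!
# Piecewise conjugacy does not imply unitary equivalence of the C*-correspondences

There are two classical multivariable dynamical systems with `n = 4` maps on one compact metrizable
space which are piecewise conjugate, but whose C*-correspondences are not unitarily equivalent.
-/

namespace Pool.Agent.Results.MP_7f766c_an.PiecewiseNotUnitary

open Filter Topology
open scoped ZeroAtInfty

/-- A classical multivariable dynamical system with `n` maps on the space `X`: a family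
`σ_1, …, σ_n` of proper continuous self-maps of `X` (`IsProperMap` contains continuity). -/
structure ClassicalSystem (n : ℕ) (X : Type*) [TopologicalSpace X] where
  /-- the maps `σ_i` -/
  map : Fin n → X → X
  proper : ∀ i, IsProperMap (map i)

section

variable {n : ℕ} {X Y : Type*} [TopologicalSpace X] [TopologicalSpace Y]

/-- The `*`-endomorphism `α_i(f) = f ∘ σ_i` of `C₀(X)`. -/
noncomputable def ClassicalSystem.endo (S : ClassicalSystem n X) (i : Fin n) (f : C₀(X, ℂ)) : C₀(X, ℂ) where
  toFun x := f (S.map i x)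
  continuous_toFun := f.continuous_toFun.comp (S.proper i).continuous
  zero_at_infty' := by
    refine f.zero_at_infty'.comp ?_
    rw [(hasBasis_cocompact (X := X)).tendsto_iff hasBasis_cocompact]
    intro K hK
    exact ⟨S.map i ⁻¹' K, (S.proper i).isCompact_preimage hK, fun x hx => hx⟩

/-- The `C₀(X)`-valued inner product `⟨ξ, η⟩ = ∑ ξ_i^* η_i` on the module `C₀(X)^n`. -/
noncomputable def inner (ξ η : Fin n → C₀(X, ℂ)) : C₀(X, ℂ) := ∑ i, star (ξ i) * η i

/-- The left action `φ(a) (ξ_i)_i = (α_i(a) ξ_i)_i` of `C₀(X)` on the module `C₀(X)^n`. -/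
noncomputable def ClassicalSystem.leftAct (S : ClassicalSystem n X) (a : C₀(X, ℂ)) (ξ : Fin n → C₀(X, ℂ)) :
    Fin n → C₀(X, ℂ) := fun i => S.endo i a * ξ i

/-- Unitary equivalence of the C*-correspondences `C₀(X)^n` and `C₀(Y)^n` of two systems: a
`*`-isomorphism `ρ : C₀(X) → C₀(Y)` and a surjective linear map `U : C₀(X)^n → C₀(Y)^n` with
`⟨U ξ, U η⟩ = ρ ⟨ξ, η⟩` and `U (φ(a) ξ) = φ(ρ(a)) (U ξ)`. -/
def UnitarilyEquivalent (S : ClassicalSystem n X) (T : ClassicalSystem n Y) : Prop :=
  ∃ (ρ : C₀(X, ℂ) ≃⋆ₐ[ℂ] C₀(Y, ℂ)) (U : (Fin n → C₀(X, ℂ)) →ₗ[ℂ] (Fin n → C₀(Y, ℂ))),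
    Function.Surjective U ∧ (∀ ξ η, inner (U ξ) (U η) = ρ (inner ξ η)) ∧
      ∀ a ξ, U (S.leftAct a ξ) = T.leftAct (ρ a) (U ξ)

/-- Piecewise conjugacy of two systems: a homeomorphism `γ : X → Y` and an open cover
`(V π)` of `X` indexed by the permutations `π` of the indices, with `τ_i ∘ γ = γ ∘ σ_{π(i)}` on
`V π`. -/
def PiecewiseConjugate (S : ClassicalSystem n X) (T : ClassicalSystem n Y) : Prop :=
  ∃ (γ : X ≃ₜ Y) (V : Equiv.Perm (Fin n) → Set X), (∀ π, IsOpen (V π)) ∧
    (⋃ π, V π) = Set.univ ∧ ∀ π, ∀ x ∈ V π, ∀ i, T.map i (γ x) = γ (S.map (π i) x)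

end

open Pool.Agent.L0h84.DK in
/-- There are a compact metrizable space `X` and two classical multivariable dynamical systems on
`X`, with four maps each, that are piecewise conjugate but have C*-correspondences which are not
unitarily equivalent. -/
theorem result : ∃ (X : Type) (_ : TopologicalSpace X) (_ : CompactSpace X)
    (_ : TopologicalSpace.MetrizableSpace X) (S T : ClassicalSystem 4 X),
    PiecewiseConjugate S T ∧ ¬ UnitarilyEquivalent S T := by
  refine ⟨X0 ⊕ X1, inferInstance, inferInstance, inferInstance,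
    ⟨Pool.Agent.L0h84.DK.S, fun i => (continuous_S i).isProperMap⟩,
    ⟨Pool.Agent.L0h84.DK.T, fun i => (continuous_T i).isProperMap⟩, ?_, ?_⟩
  · refine ⟨Homeomorph.refl _, fun π => {y | Sum.elim (fun x : X0 => 1 / 48 < x.1 π)
      (fun _ => π = 1) y}, ?_, ?_, ?_⟩
    · intro π
      rw [isOpen_sum_iff]
      refine ⟨?_, ?_⟩
      · exact isOpen_lt continuous_const ((continuous_apply π).comp continuous_subtype_val)
      · exact isOpen_const
    · rw [Set.eq_univ_iff_forall]
      rintro (x | z)
      · obtain ⟨π, hπ⟩ := exists_large x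
        exact Set.mem_iUnion.mpr ⟨π, hπ⟩
      · exact Set.mem_iUnion.mpr ⟨1, rfl⟩
    · rintro π (x | z) hx i
      · exact congrArg Sum.inr (tg_eq_sg hx i)
      · have hπ : π = 1 := hx
        subst hπ
        rfl
  · rintro ⟨ρ, U, -, h1, h2⟩
    obtain ⟨δ, hc, hi, u, hu, hdet, h⟩ := extract Pool.Agent.L0h84.DK.S continuous_S
      Pool.Agent.L0h84.DK.T ρ U h1 (by
        intro a ξ ξ' hξ i y
        have h3 : ξ' = ClassicalSystem.leftAct
            ⟨Pool.Agent.L0h84.DK.S, fun i => (continuous_S i).isProperMap⟩ a ξ := by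
          funext i
          ext x
          exact hξ i x
        rw [h3, h2]
        rfl)
    exact no_equiv hc hi u hu hdet h

end Pool.Agent.Results.MP_7f766c_an.PiecewiseNotUnitary
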